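import Pool.Agent.T6.H39.TN.Tr

/-!
# Two-numbers and mod 2 cohomology of compact symmetric spaces

The equality of the two-number and of the total mod 2 Betti number fails for compact symmetric
spaces. The example is the space of the unit decomposable tensors `x ⊗ y ⊗ z`, which is the product
of three spheres divided by the group of the sign changes with product `1`. The total mod 2 Betti
number is bounded below with explicit cocycles pulled back from the group `(ℤ/2)²`, and antipodal
sets are bounded above by a combinatorial argument on the mutual positions of the factors.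
-/

set_option autoImplicit false

open Pool.Agent.T6.H39.TN

namespace Pool.Agent.Results.MP_efd99a_gt.TwoNumberCounterexample

/-- **For every `c` there is a connected compact symmetric space `M` for which
`dim H(M; ℤ/2) > c · #₂ M`.** In particular (`c = 1`) there is one with
`#₂ M ≠ dim H(M; ℤ/2)`. -/
theorem result (c : ℕ) :
    ∃ (E : Type) (_ : NormedAddCommGroup E) (_ : InnerProductSpace ℝ E) (M : Set E)
      (s : M → E ≃ₗᵢ[ℝ] E), FiniteDimensional ℝ E ∧ IsSymmetricSpace M s ∧
      (c : Cardinal.{0}) * twoNumber s < Singular.totalBetti M := by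
  refine ⟨Te (4 * c + 3), inferInstance, inferInstance, Seg (4 * c + 3), symm, inferInstance,
    isSymmetricSpace_seg _ (by omega), ?_⟩
  rw [totalBetti_eq]
  refine lt_of_le_of_lt (mul_le_mul_right (twoNumber_seg_le _) (c : Cardinal.{0}))
    (lt_of_lt_of_le ?_ (le_totalBetti_seg _))
  have h1 : max 4 (4 * c + 3 + 1) = 4 * c + 4 := by omega
  rw [h1]
  have h2 : c * (2 * (4 * c + 4)) < (4 * c + 3 + 1) * (4 * c + 3 + 2) / 2 := by
    have h3 : (4 * c + 3 + 1) * (4 * c + 3 + 2) / 2 = (2 * c + 2) * (4 * c + 5) := by
      have : (4 * c + 3 + 1) * (4 * c + 3 + 2) = 2 * ((2 * c + 2) * (4 * c + 5)) := by ring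
      rw [this]
      omega
    rw [h3]
    nlinarith
  exact_mod_cast h2

end Pool.Agent.Results.MP_efd99a_gt.TwoNumberCounterexample
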